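import Mathlib

open Set Filter Topology

namespace Pool.Agent.H18.Ascoli

/-- `X` is Ascoli: for every compact set `K` of continuous real functions (compact-open
topology), the evaluation map `X × K → ℝ` is continuous. -/
def IsAscoli (X : Type*) [TopologicalSpace X] : Prop :=
  ∀ K : Set C(X, ℝ), IsCompact K → Continuous fun p : X × K => (p.2 : C(X, ℝ)) p.1

/-- `X` is a `k_ℝ`-space: every real function on `X` whose restriction to each compact set is
continuous is continuous. -/
def IsKR (X : Type*) [TopologicalSpace X] : Prop :=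
  ∀ f : X → ℝ, (∀ K : Set X, IsCompact K → ContinuousOn f K) → Continuous f

/-- Length of `(a, b] ∩ (c, d]`. -/
noncomputable def ov (a b c d : ℝ) : ℝ := max 0 (min b d - max a c)

lemma ov_nonneg (a b c d : ℝ) : 0 ≤ ov a b c d := le_max_left _ _

lemma ov_le_left {a b : ℝ} (c d : ℝ) (h : a ≤ b) : ov a b c d ≤ b - a := by
  unfold ov
  refine max_le (by linarith) ?_
  have h1 := min_le_left b d
  have h2 := le_max_left a c
  linarith

lemma ov_le_right (a b : ℝ) {c d : ℝ} (h : c ≤ d) : ov a b c d ≤ d - c := by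
  unfold ov
  refine max_le (by linarith) ?_
  have h1 := min_le_right b d
  have h2 := le_max_right a c
  linarith

lemma ov_self {a b : ℝ} (h : a ≤ b) : ov a b a b = b - a := by
  unfold ov
  rw [min_self, max_self, max_eq_right (by linarith)]

/-- The terms of the series. -/
noncomputable def tm (q r : ℕ → ℝ) (n : ℕ) : ℝ := ov (q n) (q (n + 1)) (r n) (r (n + 1))

/-- The set of increasing sequences in `[0,1]`. -/
def Q : Set (ℕ → ℝ) := {q | Monotone q ∧ ∀ n, q n ∈ Icc (0 : ℝ) 1}

lemma isCompact_Q : IsCompact Q := by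
  have h1 : IsCompact (Set.pi univ fun _ : ℕ => Icc (0 : ℝ) 1) :=
    isCompact_univ_pi fun _ => isCompact_Icc
  refine h1.of_isClosed_subset ?_ ?_
  · have : Q = (⋂ (m : ℕ) (n : ℕ) (_ : m ≤ n), {q : ℕ → ℝ | q m ≤ q n}) ∩
        (⋂ n : ℕ, {q : ℕ → ℝ | q n ∈ Icc (0 : ℝ) 1}) := by
      ext q
      simp only [Q, Monotone, mem_ofPred_eq, mem_inter_iff, mem_iInter]
    rw [this]
    refine IsClosed.inter ?_ ?_
    · refine isClosed_iInter fun m => isClosed_iInter fun n => isClosed_iInter fun _ => ?_
      exact isClosed_le (continuous_apply m) (continuous_apply n)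
    · refine isClosed_iInter fun n => ?_
      exact isClosed_Icc.preimage (continuous_apply n)
  · intro q hq
    simp only [mem_univ_pi]
    exact hq.2

lemma sum_tm_le {q r : ℕ → ℝ} (hr : Monotone r) (N n : ℕ) :
    ∑ i ∈ Finset.range n, tm q r (i + N) ≤ r (n + N) - r N := by
  have h1 : ∀ i, tm q r (i + N) ≤ r (i + 1 + N) - r (i + N) := by
    intro i
    have := ov_le_right (q (i + N)) (q (i + N + 1)) (hr (Nat.le_succ (i + N)))
    unfold tm
    rw [show i + 1 + N = i + N + 1 by ring]
    exact this
  calc ∑ i ∈ Finset.range n, tm q r (i + N)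
      ≤ ∑ i ∈ Finset.range n, (r (i + 1 + N) - r (i + N)) := Finset.sum_le_sum fun i _ => h1 i
    _ = r (n + N) - r N := by
        have := Finset.sum_range_sub (fun i => r (i + N)) n
        simpa using this

lemma summable_tm {q r : ℕ → ℝ} (hr : r ∈ Q) : Summable (tm q r) := by
  refine summable_of_sum_range_le (c := 1) (fun n => ov_nonneg _ _ _ _) fun n => ?_
  have := sum_tm_le (q := q) hr.1 0 n
  simp only [add_zero] at this
  have h1 := (hr.2 n).2
  have h2 := (hr.2 0).1
  linarith

/-- `II q r` is the measure of `{t : n_t(q) = n_t(r)}`. -/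
noncomputable def II (q r : ℕ → ℝ) : ℝ := ∑' n, tm q r n

lemma II_tail {q r : ℕ → ℝ} (hr : r ∈ Q) {L : ℝ} (hL : ∀ n, r n ≤ L) (N : ℕ) :
    |II q r - ∑ i ∈ Finset.range N, tm q r i| ≤ L - r N := by
  have hs := summable_tm (q := q) hr
  have h1 := hs.sum_add_tsum_nat_add N
  have h2 : II q r - ∑ i ∈ Finset.range N, tm q r i = ∑' i, tm q r (i + N) := by
    unfold II
    linarith
  rw [h2]
  have h3 : 0 ≤ ∑' i, tm q r (i + N) := tsum_nonneg fun i => ov_nonneg _ _ _ _
  rw [abs_of_nonneg h3]
  refine Real.tsum_le_of_sum_range_le (fun i => ov_nonneg _ _ _ _) fun n => ?_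
  have := sum_tm_le (q := q) hr.1 N n
  linarith [hL (n + N)]

lemma II_self {q : ℕ → ℝ} (hq : q ∈ Q) {L : ℝ} (hL : Tendsto q atTop (𝓝 L)) :
    II q q = L - q 0 := by
  have h1 : ∀ n, tm q q n = q (n + 1) - q n := fun n => ov_self (hq.1 (Nat.le_succ n))
  have h2 : HasSum (tm q q) (L - q 0) := by
    rw [hasSum_iff_tendsto_nat_of_nonneg (f := tm q q) (fun n => ov_nonneg _ _ _ _)]
    have h3 : (fun n => ∑ i ∈ Finset.range n, tm q q i) = fun n => q n - q 0 := by
      funext n
      rw [← Finset.sum_range_sub q n]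
      exact Finset.sum_congr rfl fun i _ => h1 i
    rw [h3]
    exact hL.sub_const _
  exact h2.tsum_eq

/-- **Key lemma.** On an Ascoli space, the limit of an increasing sequence of continuous
functions with values in `[0,1]` is continuous as soon as its restrictions to compact sets are
continuous. -/
theorem continuous_of_monotone {X : Type*} [TopologicalSpace X] (hX : IsAscoli X)
    (ψ : ℕ → C(X, ℝ)) (hmono : ∀ x, Monotone fun n => ψ n x)
    (h01 : ∀ n x, ψ n x ∈ Icc (0 : ℝ) 1) (s : X → ℝ)
    (hs : ∀ x, Tendsto (fun n => ψ n x) atTop (𝓝 (s x)))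
    (hk : ∀ K : Set X, IsCompact K → ContinuousOn s K) : Continuous s := by
  have hQ : ∀ x, (fun n => ψ n x) ∈ Q := fun x => ⟨hmono x, fun n => h01 n x⟩
  have hle : ∀ x n, ψ n x ≤ s x := fun x n => (hmono x).ge_of_tendsto (hs x) n
  let Ψ : X → Q := fun x => ⟨fun n => ψ n x, hQ x⟩
  have hΨ : Continuous Ψ := by
    refine Continuous.subtype_mk ?_ _
    exact continuous_pi fun n => (ψ n).continuous
  have hcont : ∀ q : Q, Continuous fun x => II (q : ℕ → ℝ) (fun n => ψ n x) := by
    intro q
    unfold II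
    refine continuous_tsum (u := fun n => (q : ℕ → ℝ) (n + 1) - (q : ℕ → ℝ) n) ?_ ?_ ?_
    · intro i
      unfold tm ov
      have h1 := (ψ i).continuous
      have h2 := (ψ (i + 1)).continuous
      fun_prop
    · refine summable_of_sum_range_le (c := 1)
        (fun n => sub_nonneg.2 (q.2.1 (Nat.le_succ n))) fun n => ?_
      rw [Finset.sum_range_sub]
      have h1 := (q.2.2 n).2
      have h2 := (q.2.2 0).1
      linarith
    · intro n x
      unfold tm
      rw [Real.norm_eq_abs, abs_of_nonneg (ov_nonneg _ _ _ _)]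
      exact ov_le_left _ _ (q.2.1 (Nat.le_succ n))
  let Φ : Q → C(X, ℝ) := fun q => ⟨fun x => II (q : ℕ → ℝ) (fun n => ψ n x), hcont q⟩
  have hΦ : Continuous Φ := by
    rw [ContinuousMap.compactOpen_eq_iInf_induced]
    refine continuous_iInf_rng.2 fun K => continuous_iInf_rng.2 fun hK => ?_
    refine continuous_induced_rng.2 ?_
    refine ContinuousMap.continuous_of_continuous_uncurry _ ?_
    have hdini : TendstoUniformlyOn (fun n x => ψ n x) s atTop K :=
      Monotone.tendstoUniformlyOn_of_forall_tendsto hK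
        (fun n => (ψ n).continuous.continuousOn) (fun x _ => hmono x) (hk K hK)
        (fun x _ => hs x)
    have hunif : TendstoUniformly
        (fun (N : ℕ) (p : Q × K) => ∑ i ∈ Finset.range N,
          tm (p.1 : ℕ → ℝ) (fun n => ψ n (p.2 : X)) i)
        (fun p : Q × K => II (p.1 : ℕ → ℝ) (fun n => ψ n (p.2 : X))) atTop := by
      rw [Metric.tendstoUniformly_iff]
      intro ε hε
      rw [Metric.tendstoUniformlyOn_iff] at hdini
      filter_upwards [hdini ε hε] with N hN p
      have h1 := hN p.2 p.2.2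
      have h2 := II_tail (q := (p.1 : ℕ → ℝ)) (hQ (p.2 : X)) (hle (p.2 : X)) N
      rw [Real.dist_eq] at h1 ⊢
      have h3 := hle (p.2 : X) N
      rw [abs_of_nonneg (by linarith)] at h1
      exact lt_of_le_of_lt h2 h1
    refine hunif.continuous (Frequently.of_forall fun N => ?_)
    refine continuous_finsetSum _ fun i _ => ?_
    unfold tm ov
    have h1 : ∀ m, Continuous fun p : Q × K => ψ m (p.2 : X) := fun m =>
      (ψ m).continuous.comp (continuous_subtype_val.comp continuous_snd)
    have h2 : ∀ m, Continuous fun p : Q × K => (p.1 : ℕ → ℝ) m := fun m =>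
      (continuous_apply m).comp (continuous_subtype_val.comp continuous_fst)
    have h3 := h1 i
    have h4 := h1 (i + 1)
    have h5 := h2 i
    have h6 := h2 (i + 1)
    exact continuous_const.max ((h6.min h4).sub (h5.max h3))
  have : CompactSpace Q := isCompact_iff_compactSpace.1 isCompact_Q
  have hK := hX (range Φ) (isCompact_range hΦ)
  have h4 : Continuous fun x : X => ((x, ⟨Φ (Ψ x), mem_range_self _⟩) : X × range Φ) := by
    refine continuous_id.prodMk ?_
    exact Continuous.subtype_mk (hΦ.comp hΨ) _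
  have h5 := hK.comp h4
  have h6 : (fun x => s x) = fun x => (Φ (Ψ x)) x + ψ 0 x := by
    funext x
    have : (Φ (Ψ x)) x = s x - ψ 0 x := II_self (hQ x) (hs x)
    rw [this]
    ring
  have h7 : Continuous fun x => (Φ (Ψ x)) x + ψ 0 x := h5.add (ψ 0).continuous
  rw [show s = fun x => s x from rfl, h6]
  exact h7

end Pool.Agent.H18.Ascoli
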