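import Mathlib
import Pool.Agent.H18.Ascoli.Key

open Set Filter Topology

namespace Pool.Agent.H18.Ascoli

/-- `X` has a countable `k`-network. -/
def HasCountableKNetwork (X : Type*) [TopologicalSpace X] : Prop :=
  ∃ N : Set (Set X), N.Countable ∧ ∀ K U : Set X, IsCompact K → IsOpen U → K ⊆ U →
    ∃ F : Set (Set X), F ⊆ N ∧ F.Finite ∧ K ⊆ ⋃₀ F ∧ ⋃₀ F ⊆ U

variable {X : Type*} [TopologicalSpace X]

/-- A good enumeration: a sequence of closed sets which separates compact sets from the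
complements of preimages of open sets under functions continuous on compact sets. -/
lemma exists_seq [RegularSpace X] (hN : HasCountableKNetwork X) :
    ∃ N : ℕ → Set X, (∀ n, IsClosed (N n)) ∧
      ∀ (f : X → ℝ), (∀ K : Set X, IsCompact K → ContinuousOn f K) →
      ∀ (K : Set X) (O : Set ℝ), IsCompact K → IsOpen O → K ⊆ f ⁻¹' O →
        ∃ n, K ⊆ N n ∧ N n ⊆ f ⁻¹' O := by
  obtain ⟨N₀, hN₀, hnet⟩ := hN
  let G : Set (Set X) := (fun t : Set (Set X) => ⋃₀ (closure '' t)) '' {t | t.Finite ∧ t ⊆ N₀}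
  have hGc : G.Countable := (Set.countable_ofPred_finite_subset hN₀).image _
  have hGcl : ∀ g ∈ G, IsClosed g := by
    rintro g ⟨t, ⟨ht, _⟩, rfl⟩
    simp only [sUnion_image]
    exact ht.isClosed_biUnion fun u _ => isClosed_closure
  let H : Set (Set X) := (fun t : Set (Set X) => ⋂₀ t) '' {t | t.Finite ∧ t ⊆ G}
  have hHc : H.Countable := (Set.countable_ofPred_finite_subset hGc).image _
  have hHcl : ∀ g ∈ H, IsClosed g := by
    rintro g ⟨t, ⟨_, ht⟩, rfl⟩
    exact isClosed_sInter fun s hs => hGcl s (ht hs)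
  have hHne : H.Nonempty := ⟨⋂₀ ∅, ∅, ⟨finite_empty, empty_subset _⟩, rfl⟩
  obtain ⟨N, hNr⟩ := hHc.exists_eq_range hHne
  refine ⟨N, fun n => hHcl _ (hNr ▸ mem_range_self n), ?_⟩
  intro f hf K O hK hO hKO
  -- members of `G` containing `K`
  have hG1 : ∀ U : Set X, IsOpen U → K ⊆ U → ∃ g ∈ G, K ⊆ g ∧ g ⊆ U := by
    intro U hU hKU
    obtain ⟨V, hVo, hKV, hVU⟩ := hK.exists_isOpen_closure_subset (hU.mem_nhdsSet.2 hKU)
    obtain ⟨F, hF, hFf, hKF, hFV⟩ := hnet K V hK hVo hKV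
    refine ⟨_, ⟨F, ⟨hFf, hF⟩, rfl⟩, ?_, ?_⟩
    · intro x hx
      obtain ⟨s, hs, hxs⟩ := hKF hx
      exact ⟨closure s, mem_image_of_mem _ hs, subset_closure hxs⟩
    · rintro x ⟨_, ⟨s, hs, rfl⟩, hx⟩
      refine hVU (closure_mono ?_ hx)
      exact (subset_sUnion_of_mem hs).trans hFV
  have hGKc : {g ∈ G | K ⊆ g}.Countable := hGc.mono (sep_subset _ _)
  have hGKne : {g ∈ G | K ⊆ g}.Nonempty := by
    obtain ⟨g, hg, hKg, _⟩ := hG1 univ isOpen_univ (subset_univ _)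
    exact ⟨g, hg, hKg⟩
  obtain ⟨g, hg⟩ := hGKc.exists_eq_range hGKne
  have hgm : ∀ n, g n ∈ G ∧ K ⊆ g n := fun n => by
    have : g n ∈ {g ∈ G | K ⊆ g} := hg ▸ mem_range_self n
    exact this
  let M : ℕ → Set X := fun n => ⋂₀ (g '' Iic n)
  have hMH : ∀ n, M n ∈ H := by
    intro n
    refine ⟨g '' Iic n, ⟨(finite_Iic n).image _, ?_⟩, rfl⟩
    rintro _ ⟨i, _, rfl⟩
    exact (hgm i).1
  have hKM : ∀ n, K ⊆ M n := by
    intro n
    refine subset_sInter ?_
    rintro _ ⟨i, _, rfl⟩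
    exact (hgm i).2
  by_cases hex : ∃ n, M n ⊆ f ⁻¹' O
  · obtain ⟨n, hn⟩ := hex
    have : M n ∈ range N := hNr ▸ hMH n
    obtain ⟨k, hk⟩ := this
    exact ⟨k, hk ▸ hKM n, hk ▸ hn⟩
  exfalso
  push Not at hex
  have hx : ∀ n, ∃ x, x ∈ M n ∧ x ∉ f ⁻¹' O := fun n => not_subset.1 (hex n)
  choose x hxM hxO using hx
  have hev : ∀ U : Set X, IsOpen U → K ⊆ U → ∃ n, ∀ m, n ≤ m → x m ∈ U := by
    intro U hU hKU
    obtain ⟨s, hs, hKs, hsU⟩ := hG1 U hU hKU
    have : s ∈ range g := hg ▸ (show s ∈ {g ∈ G | K ⊆ g} from ⟨hs, hKs⟩)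
    obtain ⟨i, rfl⟩ := this
    refine ⟨i, fun m hm => hsU ?_⟩
    exact hxM m (g i) (mem_image_of_mem _ hm)
  have hC : IsCompact (K ∪ range x) := by
    refine isCompact_of_finite_subcover ?_
    intro ι U hU hcov
    obtain ⟨t, ht⟩ := hK.elim_finite_subcover U hU (subset_union_left.trans hcov)
    obtain ⟨n, hn⟩ := hev (⋃ i ∈ t, U i) (isOpen_biUnion fun i _ => hU i) ht
    have hm : ∀ m, ∃ i, x m ∈ U i := fun m => mem_iUnion.1 (hcov (Or.inr (mem_range_self m)))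
    choose j hj using hm
    classical
    refine ⟨t ∪ (Finset.range n).image j, ?_⟩
    rintro y (hy | ⟨m, rfl⟩)
    · obtain ⟨i, hi, hyi⟩ := mem_iUnion₂.1 (ht hy)
      exact mem_iUnion₂.2 ⟨i, Finset.mem_union_left _ hi, hyi⟩
    · by_cases hmn : m < n
      · exact mem_iUnion₂.2 ⟨j m, Finset.mem_union_right _
          (Finset.mem_image_of_mem _ (Finset.mem_range.2 hmn)), hj m⟩
      · obtain ⟨i, hi, hyi⟩ := mem_iUnion₂.1 (hn m (not_lt.1 hmn))
        exact mem_iUnion₂.2 ⟨i, Finset.mem_union_left _ hi, hyi⟩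
  obtain ⟨U, hU, hUeq⟩ := continuousOn_iff'.1 (hf _ hC) O hO
  have hKU : K ⊆ U := by
    intro k hk
    have : k ∈ f ⁻¹' O ∩ (K ∪ range x) := ⟨hKO hk, Or.inl hk⟩
    rw [hUeq] at this
    exact this.1
  obtain ⟨n, hn⟩ := hev U hU hKU
  have : x n ∈ U ∩ (K ∪ range x) := ⟨hn n le_rfl, Or.inr (mem_range_self n)⟩
  rw [← hUeq] at this
  exact hxO n this.1

lemma lindelof_of_kNetwork (hN : HasCountableKNetwork X) : LindelofSpace X := by
  obtain ⟨N, hNc, hnet⟩ := hN
  refine ⟨isLindelof_of_countable_subcover ?_⟩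
  intro ι U hU hcov
  have h1 : ∀ x : X, ∃ s ∈ N, x ∈ s ∧ ∃ i, s ⊆ U i := by
    intro x
    obtain ⟨i, hi⟩ := mem_iUnion.1 (hcov (mem_univ x))
    obtain ⟨F, hF, _, hxF, hFU⟩ := hnet {x} (U i) isCompact_singleton (hU i)
      (singleton_subset_iff.2 hi)
    obtain ⟨s, hs, hxs⟩ := hxF (mem_singleton x)
    exact ⟨s, hF hs, hxs, i, (subset_sUnion_of_mem hs).trans hFU⟩
  let N' : Set (Set X) := {s ∈ N | ∃ i, s ⊆ U i}
  have hN' : N'.Countable := hNc.mono (sep_subset _ _)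
  have h2 : ∀ s : N', ∃ i, (s : Set X) ⊆ U i := fun s => s.2.2
  choose j hj using h2
  have : Countable N' := hN'.to_subtype
  refine ⟨range j, countable_range j, ?_⟩
  intro x _
  obtain ⟨s, hs, hxs, hi⟩ := h1 x
  exact mem_iUnion₂.2 ⟨j ⟨s, hs, hi⟩, mem_range_self _, hj ⟨s, hs, hi⟩ hxs⟩

/-- Uniform approximation on compact sets by continuous functions. -/
lemma exists_approx [T3Space X] (hN : HasCountableKNetwork X) (f : X → ℝ)
    (hf : ∀ K : Set X, IsCompact K → ContinuousOn f K) (h01 : ∀ x, f x ∈ Icc (0 : ℝ) 1) :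
    ∃ φ : ℕ → C(X, ℝ), (∀ n x, φ n x ∈ Icc (0 : ℝ) 1) ∧
      ∀ K : Set X, IsCompact K → ∀ ε > 0, ∃ n₀, ∀ n, n₀ ≤ n → ∀ x ∈ K, |φ n x - f x| < ε := by
  have := lindelof_of_kNetwork hN
  obtain ⟨N, hNcl, hNK⟩ := exists_seq hN
  let A : ℕ → ℝ → Set X := fun n r => ⋃ k ∈ {k | k < n ∧ N k ⊆ {x | f x < r}}, N k
  let B : ℕ → ℝ → Set X := fun n r => ⋃ k ∈ {k | k < n ∧ N k ⊆ {x | r < f x}}, N k
  have hfin : ∀ (n : ℕ) (P : ℕ → Prop), {k | k < n ∧ P k}.Finite := fun n P =>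
    (finite_lt_nat n).subset fun k hk => hk.1
  have hA : ∀ n r, IsClosed (A n r) := fun n r =>
    (hfin n _).isClosed_biUnion fun k _ => hNcl k
  have hB : ∀ n r, IsClosed (B n r) := fun n r =>
    (hfin n _).isClosed_biUnion fun k _ => hNcl k
  have hAf : ∀ n r x, x ∈ A n r → f x < r := by
    intro n r x hx
    obtain ⟨k, hk, hxk⟩ := mem_iUnion₂.1 hx
    exact hk.2 hxk
  have hBf : ∀ n r x, x ∈ B n r → r < f x := by
    intro n r x hx
    obtain ⟨k, hk, hxk⟩ := mem_iUnion₂.1 hx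
    exact hk.2 hxk
  have hAB : ∀ n r, Disjoint (A n r) (B n r) := by
    intro n r
    rw [Set.disjoint_left]
    intro x hx hx'
    exact lt_asymm (hAf n r x hx) (hBf n r x hx')
  have hu : ∀ n r, ∃ u : C(X, ℝ), EqOn u 0 (A n r) ∧ EqOn u 1 (B n r) ∧
      ∀ x, u x ∈ Icc (0 : ℝ) 1 := fun n r =>
    exists_continuous_zero_one_of_isClosed (hA n r) (hB n r) (hAB n r)
  choose u hu0 hu1 hu01 using hu
  let φf : ℕ → X → ℝ := fun n x => (∑ l ∈ Finset.range n, u n ((l + 1 : ℝ) / n) x) / n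
  have hφc : ∀ n, Continuous (φf n) := by
    intro n
    refine Continuous.div_const ?_ _
    exact continuous_finsetSum _ fun l _ => (u n _).continuous
  have hφ01 : ∀ n x, φf n x ∈ Icc (0 : ℝ) 1 := by
    intro n x
    have h1 : 0 ≤ ∑ l ∈ Finset.range n, u n ((l + 1 : ℝ) / n) x :=
      Finset.sum_nonneg fun l _ => (hu01 n _ x).1
    have h2 : ∑ l ∈ Finset.range n, u n ((l + 1 : ℝ) / n) x ≤ n := by
      calc _ ≤ ∑ l ∈ Finset.range n, (1 : ℝ) := Finset.sum_le_sum fun l _ => (hu01 n _ x).2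
        _ = n := by simp
    refine ⟨div_nonneg h1 (Nat.cast_nonneg n), ?_⟩
    exact div_le_one_of_le₀ h2 (Nat.cast_nonneg n)
  -- main estimate
  have hest : ∀ n k : ℕ, k < n → ∀ a b : ℝ, N k ⊆ f ⁻¹' (Ioo a b) → ∀ x ∈ N k,
      |φf n x - f x| ≤ (b - a) + 1 / n := by
    intro n k hkn a b hab x hx
    have hn : (0 : ℝ) < n := by
      have : 0 < n := lt_of_le_of_lt (Nat.zero_le k) hkn
      exact_mod_cast this
    have hfx := hab hx
    have hfx1 := h01 x
    have hsum_up : ∑ l ∈ Finset.range n, u n ((l + 1 : ℝ) / n) x ≤ n * b + 1 := by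
      have hb : 0 ≤ (n : ℝ) * b := mul_nonneg hn.le (hfx1.1.trans hfx.2.le)
      have h1 : ∀ l ∈ Finset.range n, u n ((l + 1 : ℝ) / n) x ≤
          if l < ⌈(n : ℝ) * b⌉₊ then (1 : ℝ) else 0 := by
        intro l _
        split_ifs with hl
        · exact (hu01 n _ x).2
        · have h2 : (n : ℝ) * b ≤ l := (Nat.le_ceil _).trans (by exact_mod_cast not_lt.1 hl)
          have h3 : b < (l + 1 : ℝ) / n := by
            rw [lt_div_iff₀ hn]
            nlinarith
          have h4 : x ∈ A n ((l + 1 : ℝ) / n) := by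
            refine mem_iUnion₂.2 ⟨k, ⟨hkn, ?_⟩, hx⟩
            intro y hy
            exact (hab hy).2.trans h3
          have h5 := hu0 n _ h4
          rw [h5]
          simp
      calc _ ≤ ∑ l ∈ Finset.range n, (if l < ⌈(n : ℝ) * b⌉₊ then (1 : ℝ) else 0) :=
            Finset.sum_le_sum h1
        _ = ((Finset.range n).filter (fun l => l < ⌈(n : ℝ) * b⌉₊)).card := by
            rw [Finset.sum_boole]
        _ ≤ ⌈(n : ℝ) * b⌉₊ := by
            have : ((Finset.range n).filter (fun l => l < ⌈(n : ℝ) * b⌉₊)).card ≤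
                (Finset.range ⌈(n : ℝ) * b⌉₊).card := by
              refine Finset.card_le_card ?_
              intro l hl
              exact Finset.mem_range.2 (Finset.mem_filter.1 hl).2
            rw [Finset.card_range] at this
            exact_mod_cast this
        _ ≤ n * b + 1 := (Nat.ceil_lt_add_one hb).le
    have hsum_lo : n * a - 1 ≤ ∑ l ∈ Finset.range n, u n ((l + 1 : ℝ) / n) x := by
      rcases le_or_gt 0 a with ha | ha
      · have hc : ⌊(n : ℝ) * a⌋₊ ≤ n := by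
          have h1 : (n : ℝ) * a ≤ n := by
            have : a ≤ 1 := (hfx.1.trans_le hfx1.2).le
            nlinarith
          calc ⌊(n : ℝ) * a⌋₊ ≤ ⌊(n : ℝ)⌋₊ := Nat.floor_le_floor h1
            _ = n := Nat.floor_natCast n
        have h2 : ∀ l ∈ Finset.range ⌊(n : ℝ) * a⌋₊, u n ((l + 1 : ℝ) / n) x = 1 := by
          intro l hl
          have h3 : ((l + 1 : ℕ) : ℝ) ≤ n * a :=
            (Nat.le_floor_iff (mul_nonneg hn.le ha)).1 (Finset.mem_range.1 hl)
          push_cast at h3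
          have h4 : (l + 1 : ℝ) / n ≤ a := by
            rw [div_le_iff₀ hn]
            linarith
          have h5 : x ∈ B n ((l + 1 : ℝ) / n) := by
            refine mem_iUnion₂.2 ⟨k, ⟨hkn, ?_⟩, hx⟩
            intro y hy
            exact h4.trans_lt (hab hy).1
          have h6 := hu1 n _ h5
          rw [h6]
          simp
        calc n * a - 1 ≤ ⌊(n : ℝ) * a⌋₊ := by linarith [Nat.lt_floor_add_one ((n : ℝ) * a)]
          _ = ∑ l ∈ Finset.range ⌊(n : ℝ) * a⌋₊, (1 : ℝ) := by simp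
          _ = ∑ l ∈ Finset.range ⌊(n : ℝ) * a⌋₊, u n ((l + 1 : ℝ) / n) x :=
              Finset.sum_congr rfl fun l hl => (h2 l hl).symm
          _ ≤ ∑ l ∈ Finset.range n, u n ((l + 1 : ℝ) / n) x := by
              refine Finset.sum_le_sum_of_subset_of_nonneg ?_ fun l _ _ => (hu01 n _ x).1
              exact Finset.range_mono hc
      · have h1 : 0 ≤ ∑ l ∈ Finset.range n, u n ((l + 1 : ℝ) / n) x :=
          Finset.sum_nonneg fun l _ => (hu01 n _ x).1
        nlinarith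
    have hup : φf n x ≤ b + 1 / n := by
      have : φf n x ≤ (n * b + 1) / n := div_le_div_of_nonneg_right hsum_up hn.le
      rw [add_div, mul_div_cancel_left₀ _ hn.ne'] at this
      exact this
    have hlo : a - 1 / n ≤ φf n x := by
      have : (n * a - 1) / n ≤ φf n x := div_le_div_of_nonneg_right hsum_lo hn.le
      rw [sub_div, mul_div_cancel_left₀ _ hn.ne'] at this
      exact this
    rw [abs_le]
    have := hfx.1
    have := hfx.2
    constructor <;> linarith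
  refine ⟨fun n => ⟨φf n, hφc n⟩, hφ01, ?_⟩
  intro K hK ε hε
  set δ : ℝ := ε / 8 with hδ
  have hδ0 : 0 < δ := by positivity
  obtain ⟨m, hm⟩ := exists_nat_gt (1 / δ)
  have hpc : ∀ j : ℕ, ∃ k, K ∩ f ⁻¹' Icc (j * δ) ((j + 1) * δ) ⊆ N k ∧
      N k ⊆ f ⁻¹' Ioo (j * δ - δ) ((j + 1) * δ + δ) := by
    intro j
    refine hNK f hf _ _ ?_ isOpen_Ioo ?_
    · exact hK.of_isClosed_subset
        ((hf K hK).preimage_isClosed_of_isClosed hK.isClosed isClosed_Icc) inter_subset_left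
    · rintro x ⟨_, hx⟩
      simp only [mem_preimage, mem_Icc, mem_Ioo] at hx ⊢
      constructor <;> linarith [hx.1, hx.2]
  choose κ hκ1 hκ2 using hpc
  obtain ⟨n₁, hn₁⟩ := exists_nat_gt (1 / δ)
  refine ⟨max (n₁ + 1) (((Finset.range (m + 1)).sup κ) + 1), fun n hn x hx => ?_⟩
  have hnn₁ : n₁ + 1 ≤ n := (le_max_left _ _).trans hn
  have hn0 : (0 : ℝ) < n := by
    have : 0 < n := by omega
    exact_mod_cast this
  have h1n : 1 / (n : ℝ) < δ := by
    rw [div_lt_iff₀ hn0]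
    rw [div_lt_iff₀ hδ0] at hn₁
    have : (n₁ : ℝ) ≤ n := by exact_mod_cast (by omega : n₁ ≤ n)
    nlinarith
  -- the interval containing `f x`
  set j : ℕ := ⌊f x / δ⌋₊ with hj
  have hfx0 : 0 ≤ f x / δ := div_nonneg (h01 x).1 hδ0.le
  have hj1 : (j : ℝ) * δ ≤ f x := by
    rw [← le_div_iff₀ hδ0]
    exact Nat.floor_le hfx0
  have hj2 : f x ≤ (j + 1) * δ := by
    rw [← div_le_iff₀ hδ0]
    exact (Nat.lt_floor_add_one _).le
  have hjm : j ≤ m := by
    have : (j : ℝ) ≤ 1 / δ := (Nat.floor_le hfx0).trans (div_le_div_of_nonneg_right (h01 x).2 hδ0.le)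
    have : (j : ℝ) < m := this.trans_lt hm
    exact_mod_cast this.le
  have hκj : κ j < n := by
    have h1 : κ j ≤ (Finset.range (m + 1)).sup κ :=
      Finset.le_sup (Finset.mem_range.2 (by omega))
    have h2 : (Finset.range (m + 1)).sup κ + 1 ≤ n := (le_max_right _ _).trans hn
    omega
  have := hest n (κ j) hκj _ _ (hκ2 j) x (hκ1 j ⟨hx, hj1, hj2⟩)
  refine lt_of_le_of_lt this ?_
  have : (j + 1) * δ + δ - (j * δ - δ) + 1 / (n : ℝ) < 4 * δ := by
    have : (j + 1) * δ + δ - (j * δ - δ) = 3 * δ := by ring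
    linarith
  refine this.trans ?_
  rw [hδ]
  linarith

end Pool.Agent.H18.Ascoli
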