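import Mathlib
import Pool.Agent.H18.Ascoli.Network

open Set Filter Topology

namespace Pool.Agent.H18.Ascoli

variable {X : Type*} [TopologicalSpace X]

lemma isOpen_lt_of_unit [T3Space X] (hN : HasCountableKNetwork X) (hX : IsAscoli X) (f : X → ℝ)
    (hf : ∀ K : Set X, IsCompact K → ContinuousOn f K) (h01 : ∀ x, f x ∈ Icc (0 : ℝ) 1)
    (c : ℝ) : IsOpen {x | f x < c} := by
  obtain ⟨φ, hφ01, hφ⟩ := exists_approx hN f hf h01
  -- partial suprema
  let P : ℕ → ℕ → X → ℝ := fun j n x => partialSups (fun i => φ (j + i) x) n
  have hPc : ∀ j n, Continuous (P j n) := by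
    intro j n
    induction n with
    | zero =>
      have : P j 0 = fun x => φ (j + 0) x := by
        funext x
        exact partialSups_zero _
      rw [this]
      exact (φ (j + 0)).continuous
    | succ n ih =>
      have : P j (n + 1) = fun x => max (P j n x) (φ (j + (n + 1)) x) := by
        funext x
        exact partialSups_succ _ n
      rw [this]
      exact ih.max (φ (j + (n + 1))).continuous
  have hPmono : ∀ j x, Monotone fun n => P j n x := fun j x => (partialSups _).monotone
  have hP01 : ∀ j n x, P j n x ∈ Icc (0 : ℝ) 1 := by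
    intro j n x
    refine ⟨?_, partialSups_le _ _ _ fun i _ => (hφ01 _ x).2⟩
    exact (hφ01 (j + 0) x).1.trans (le_partialSups_of_le (fun i => φ (j + i) x) (Nat.zero_le n))
  have hbdd : ∀ j x, BddAbove (range fun n => P j n x) := by
    intro j x
    refine ⟨1, ?_⟩
    rintro _ ⟨n, rfl⟩
    exact (hP01 j n x).2
  let s : ℕ → X → ℝ := fun j x => ⨆ n, P j n x
  have hslim : ∀ j x, Tendsto (fun n => P j n x) atTop (𝓝 (s j x)) := fun j x =>
    tendsto_atTop_ciSup (hPmono j x) (hbdd j x)
  have hPs : ∀ j n x, P j n x ≤ s j x := fun j n x => le_ciSup (hbdd j x) n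
  have hφP : ∀ j i n x, i ≤ n → φ (j + i) x ≤ P j n x := fun j i n x hi =>
    le_partialSups_of_le (fun i => φ (j + i) x) hi
  have hscont : ∀ j, Continuous (s j) := by
    intro j
    refine continuous_of_monotone hX (fun n => ⟨P j n, hPc j n⟩) (hPmono j) (hP01 j) (s j)
      (hslim j) ?_
    intro K hK
    have hunif : TendstoUniformlyOn (P j) (s j) atTop K := by
      rw [Metric.tendstoUniformlyOn_iff]
      intro ε hε
      obtain ⟨n₀, hn₀⟩ := hφ K hK (ε / 4) (by positivity)
      filter_upwards [eventually_ge_atTop n₀] with n hn x hx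
      have h1 : s j x ≤ P j n x + ε / 2 := by
        refine ciSup_le fun m => ?_
        refine partialSups_le _ _ _ fun i _ => ?_
        rcases le_or_gt i n with hi | hi
        · have := hφP j i n x hi
          linarith
        · have h2 := hn₀ (j + i) (by omega) x hx
          have h3 := hn₀ (j + n) (by omega) x hx
          have h4 := hφP j n n x le_rfl
          rw [abs_lt] at h2 h3
          linarith [h2.1, h2.2, h3.1, h3.2]
      have h2 := hPs j n x
      rw [Real.dist_eq, abs_of_nonneg (by linarith)]
      linarith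
    exact hunif.continuousOn (Frequently.of_forall fun n => (hPc j n).continuousOn)
  have hφx : ∀ x, ∀ ε > 0, ∃ n₀, ∀ n, n₀ ≤ n → |φ n x - f x| < ε := by
    intro x ε hε
    obtain ⟨n₀, h⟩ := hφ {x} isCompact_singleton ε hε
    exact ⟨n₀, fun n hn => h n hn x rfl⟩
  have hfs : ∀ j x, f x ≤ s j x := by
    intro j x
    refine le_of_forall_pos_le_add fun ε hε => ?_
    obtain ⟨n₀, h⟩ := hφx x ε hε
    have h1 := h (j + n₀) (by omega)
    have h2 := (hφP j n₀ n₀ x le_rfl).trans (hPs j n₀ x)
    rw [abs_lt] at h1
    linarith [h1.1]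
  have heq : {x | f x < c} = ⋃ j, {x | s j x < c} := by
    ext x
    simp only [mem_iUnion]
    constructor
    · intro hx
      have hx' : f x < c := hx
      obtain ⟨n₀, h⟩ := hφx x ((c - f x) / 2) (by linarith)
      refine ⟨n₀, ?_⟩
      have : s n₀ x ≤ f x + (c - f x) / 2 := by
        refine ciSup_le fun m => ?_
        refine partialSups_le _ _ _ fun i _ => ?_
        have := h (n₀ + i) (by omega)
        rw [abs_lt] at this
        linarith [this.2]
      show s n₀ x < c
      linarith
    · rintro ⟨j, hj⟩
      exact lt_of_le_of_lt (hfs j x) hj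
  rw [heq]
  exact isOpen_iUnion fun j => isOpen_lt (hscont j) continuous_const

/-- Every Ascoli `ℵ₀`-space is a `k_ℝ`-space. -/
theorem isKR_of_isAscoli [T3Space X] (hN : HasCountableKNetwork X) (hX : IsAscoli X) :
    IsKR X := by
  have key : ∀ f : X → ℝ, (∀ K : Set X, IsCompact K → ContinuousOn f K) →
      ∀ c : ℝ, IsOpen {x | f x < c} := by
    intro f hf c
    let g : X → ℝ := fun x => (max (c - 1) (min (f x) (c + 1)) - (c - 1)) / 2
    have hg : ∀ K : Set X, IsCompact K → ContinuousOn g K := by
      intro K hK
      have := hf K hK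
      fun_prop
    have hg01 : ∀ x, g x ∈ Icc (0 : ℝ) 1 := by
      intro x
      have h1 : c - 1 ≤ max (c - 1) (min (f x) (c + 1)) := le_max_left _ _
      have h2 : max (c - 1) (min (f x) (c + 1)) ≤ c + 1 :=
        max_le (by linarith) (min_le_right _ _)
      constructor
      · show 0 ≤ (max (c - 1) (min (f x) (c + 1)) - (c - 1)) / 2
        linarith
      · show (max (c - 1) (min (f x) (c + 1)) - (c - 1)) / 2 ≤ 1
        linarith
    have h := isOpen_lt_of_unit hN hX g hg hg01 (1 / 2)
    have heq : {x | f x < c} = {x | g x < 1 / 2} := by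
      ext x
      show f x < c ↔ (max (c - 1) (min (f x) (c + 1)) - (c - 1)) / 2 < 1 / 2
      constructor
      · intro hx
        have : max (c - 1) (min (f x) (c + 1)) < c :=
          max_lt (by linarith) (lt_of_le_of_lt (min_le_left _ _) hx)
        linarith
      · intro hx
        have h1 : max (c - 1) (min (f x) (c + 1)) < c := by linarith
        have h2 : min (f x) (c + 1) < c := lt_of_le_of_lt (le_max_right _ _) h1
        rcases min_lt_iff.1 h2 with h3 | h3
        · exact h3
        · linarith
    rw [heq]
    exact h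
  intro f hf
  rw [OrderTopology.continuous_iff]
  intro a
  constructor
  · have h1 := key (fun x => -f x) (fun K hK => (hf K hK).neg) (-a)
    have : f ⁻¹' Ioi a = {x | -f x < -a} := by
      ext x
      simp
    rw [this]
    exact h1
  · exact key f hf a

end Pool.Agent.H18.Ascoli
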