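import Mathlib
import Pool.Agent.H18.Ascoli.Key

open Set Filter Topology

namespace Pool.Agent.H18.Ascoli

/-- Nonempty binary words. -/
abbrev Wd : Type := {w : List Bool // w ≠ []}

/-- The node of the binary tree reached by a finite sequence of nonempty words
(the head of the list is the last word). -/
def node : List Wd → List Bool
  | [] => []
  | w :: σ => node σ ++ w.1

/-- The underlying set of the example: finite sequences of nonempty binary words, which
represent the finite chains of the binary tree. -/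
structure E : Type where
  /-- The list of words. -/
  lst : List Wd

lemma E.lst_injective : Function.Injective E.lst := by
  rintro ⟨σ⟩ ⟨τ⟩ h
  exact congrArg E.mk h

instance : Countable E := E.lst_injective.countable

/-- One step of a sequence. -/
def ext (w : Wd) (σ : E) : E := ⟨w :: σ.lst⟩

/-- Appending a nonempty word to a word. -/
def app (u : List Bool) (a : Wd) : Wd := ⟨u ++ a.1, by
  intro h
  exact a.2 (List.append_eq_nil_iff.1 h).2⟩

/-- The word `c₀ a₀ b₀ a₁ b₁ ⋯ a_{k-1} b_{k-1}`. -/
def base (c₀ : List Bool) (a b : ℕ → Wd) : ℕ → List Bool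
  | 0 => c₀
  | k + 1 => base c₀ a b k ++ (a k).1 ++ (b k).1

/-- The neighbourhood condition of the auxiliary topology. -/
def Nb (σ : E) (U : Set E) : Prop :=
  (∀ v : List Bool, ∃ v' : List Bool, ∀ w : Wd, (v ++ v') <+: w.1 → ext w σ ∈ U) ∧
  (∀ (c₀ : List Bool) (a b : ℕ → Wd), ∀ᶠ k in atTop,
    ext (b k) (ext (app (base c₀ a b k) (a k)) σ) ∈ U)

lemma Nb.mono {σ : E} {U V : Set E} (h : Nb σ U) (hUV : U ⊆ V) : Nb σ V := by
  refine ⟨fun v => ?_, fun c₀ a b => ?_⟩
  · obtain ⟨v', h'⟩ := h.1 v
    exact ⟨v', fun w hw => hUV (h' w hw)⟩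
  · filter_upwards [h.2 c₀ a b] with k hk
    exact hUV hk

lemma Nb.inter {σ : E} {U V : Set E} (h : Nb σ U) (h' : Nb σ V) : Nb σ (U ∩ V) := by
  refine ⟨fun v => ?_, fun c₀ a b => ?_⟩
  · obtain ⟨v₁, h₁⟩ := h.1 v
    obtain ⟨v₂, h₂⟩ := h'.1 (v ++ v₁)
    refine ⟨v₁ ++ v₂, fun w hw => ⟨h₁ w ?_, h₂ w ?_⟩⟩
    · refine List.IsPrefix.trans ?_ hw
      rw [← List.append_assoc]
      exact List.prefix_append _ _
    · rw [List.append_assoc]
      exact hw
  · filter_upwards [h.2 c₀ a b, h'.2 c₀ a b] with k hk hk'
    exact ⟨hk, hk'⟩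

lemma Nb.univ (σ : E) : Nb σ univ :=
  ⟨fun _ => ⟨[], fun _ _ => mem_univ _⟩, fun _ _ _ => Eventually.of_forall fun _ => mem_univ _⟩

/-- The auxiliary topology. -/
@[reducible] def tau1 : TopologicalSpace E where
  IsOpen U := ∀ σ ∈ U, Nb σ U
  isOpen_univ := fun σ _ => Nb.univ σ
  isOpen_inter := fun _ _ hU hV σ hσ => (hU σ hσ.1).inter (hV σ hσ.2)
  isOpen_sUnion := fun _ hS σ ⟨U, hU, hσ⟩ => (hS U hU σ hσ).mono (subset_sUnion_of_mem hU)

/-- The functions which are continuous for the auxiliary topology. -/
def Adm (g : E → ℝ) : Prop := ∀ O : Set ℝ, IsOpen O → ∀ σ ∈ g ⁻¹' O, Nb σ (g ⁻¹' O)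

/-- The topology of the example is the coarsest one for which all real functions that are
continuous for the auxiliary topology are continuous. -/
instance instE : TopologicalSpace E :=
  ⨅ g : {g : E → ℝ // Adm g}, TopologicalSpace.induced g.1 inferInstance

lemma Adm.continuous {g : E → ℝ} (hg : Adm g) : Continuous g := by
  refine continuous_iInf_dom (i := (⟨g, hg⟩ : {g : E → ℝ // Adm g})) ?_
  exact continuous_induced_dom

lemma nb_of_isOpen {U : Set E} (hU : IsOpen U) {σ : E} (hσ : σ ∈ U) : Nb σ U := by
  have h : tau1 ≤ instE := by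
    refine le_iInf fun g => ?_
    have hg : @Continuous E ℝ tau1 _ g.1 := @Continuous.mk _ _ tau1 _ _ (fun O hO => g.2 O hO)
    exact continuous_iff_le_induced.1 hg
  exact h U hU σ hσ

/-- Criterion for admissibility: `g` is locally constant for the auxiliary topology. -/
lemma adm_of_const {g : E → ℝ}
    (h1 : ∀ (σ : E) (v : List Bool), ∃ v' : List Bool, ∀ w : Wd, (v ++ v') <+: w.1 →
      g (ext w σ) = g σ)
    (h2 : ∀ (σ : E) (c₀ : List Bool) (a b : ℕ → Wd), ∀ᶠ k in atTop,
      g (ext (b k) (ext (app (base c₀ a b k) (a k)) σ)) = g σ) : Adm g := by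
  intro O _ σ hσ
  refine ⟨fun v => ?_, fun c₀ a b => ?_⟩
  · obtain ⟨v', h⟩ := h1 σ v
    refine ⟨v', fun w hw => ?_⟩
    show g (ext w σ) ∈ O
    rw [h w hw]
    exact hσ
  · filter_upwards [h2 σ c₀ a b] with k hk
    show g _ ∈ O
    rw [hk]
    exact hσ

lemma node_cons_length (w : Wd) (σ : List Wd) :
    (node (w :: σ)).length = (node σ).length + w.1.length := by
  simp [node]

lemma wd_length_pos (w : Wd) : 0 < w.1.length := List.length_pos_iff.2 w.2

lemma base_length (c₀ : List Bool) (a b : ℕ → Wd) (k : ℕ) : k ≤ (base c₀ a b k).length := by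
  induction k with
  | zero => exact Nat.zero_le _
  | succ k ih =>
    have := wd_length_pos (a k)
    simp only [base, List.length_append]
    omega

/-- Suffix indicator. -/
noncomputable def chi (ρ : List Wd) (τ : E) : ℝ := by
  classical
  exact if ρ <:+ τ.lst then 1 else 0

lemma adm_chi (ρ : List Wd) : Adm (chi ρ) := by
  classical
  refine adm_of_const (fun σ v => ?_) (fun σ c₀ a b => ?_)
  · cases ρ with
    | nil =>
      refine ⟨[], fun w _ => ?_⟩
      unfold chi
      rw [if_pos (List.nil_suffix), if_pos (List.nil_suffix)]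
    | cons w₀ ρ' =>
      refine ⟨w₀.1 ++ [true], fun w hw => ?_⟩
      have hne : w₀ :: ρ' ≠ w :: σ.lst := by
        intro h
        have h1 : w₀ = w := (List.cons.inj h).1
        have h2 := hw.length_le
        rw [← h1] at h2
        simp only [List.length_append, List.length_singleton] at h2
        omega
      have : (w₀ :: ρ' <:+ (w :: σ.lst)) ↔ (w₀ :: ρ' <:+ σ.lst) := by
        rw [List.suffix_cons_iff]
        constructor
        · rintro (h | h)
          · exact absurd h hne
          · exact h
        · exact Or.inr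
      unfold chi
      exact if_congr this rfl rfl
  · filter_upwards [eventually_gt_atTop (node ρ).length] with k hk
    have hlen : ∀ (σ' : List Wd), (node ρ).length < (node (app (base c₀ a b k) (a k) :: σ')).length := by
      intro σ'
      rw [node_cons_length]
      have h1 := base_length c₀ a b k
      have h2 : (app (base c₀ a b k) (a k)).1.length = (base c₀ a b k).length + (a k).1.length := by
        simp [app]
      omega
    have hne1 : ρ ≠ app (base c₀ a b k) (a k) :: σ.lst := by
      intro h
      have := hlen σ.lst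
      rw [← h] at this
      omega
    have hne2 : ρ ≠ b k :: app (base c₀ a b k) (a k) :: σ.lst := by
      intro h
      have h1 := hlen σ.lst
      have h2 : (node ρ).length = (node (b k :: app (base c₀ a b k) (a k) :: σ.lst)).length :=
        congrArg (fun l => (node l).length) h
      rw [node_cons_length] at h2
      omega
    have : (ρ <:+ (b k :: app (base c₀ a b k) (a k) :: σ.lst)) ↔
        (ρ <:+ σ.lst) := by
      rw [List.suffix_cons_iff, List.suffix_cons_iff]
      constructor
      · rintro (h | h | h)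
        · exact absurd h hne2
        · exact absurd h hne1
        · exact h
      · exact fun h => Or.inr (Or.inr h)
    unfold chi
    exact if_congr this rfl rfl

lemma chi_self (σ : E) : chi σ.lst σ = 1 := by
  classical
  unfold chi
  rw [if_pos]
  exact List.suffix_rfl

lemma chi_eq_one {ρ : List Wd} {σ : E} (h : chi ρ σ = 1) : ρ <:+ σ.lst := by
  classical
  by_contra hne
  unfold chi at h
  rw [if_neg hne] at h
  norm_num at h

lemma eq_of_chi {σ τ : E} (h1 : chi σ.lst τ = chi σ.lst σ) (h2 : chi τ.lst τ = chi τ.lst σ) : τ = σ := by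
  rw [chi_self] at h1 h2
  have h3 := chi_eq_one h1
  have h4 := chi_eq_one h2.symm
  exact E.lst_injective (h4.eq_of_length (le_antisymm h4.length_le h3.length_le))

instance : T35Space E := by
  have h1 : CompletelyRegularSpace E :=
    completelyRegularSpace_iInf fun g => completelyRegularSpace_induced inferInstance _
  have h2 : T0Space E := by
    refine ⟨fun σ τ h => ?_⟩
    have h3 : ∀ ρ : List Wd, chi ρ σ = chi ρ τ := fun ρ =>
      ((h.map (adm_chi ρ).continuous).eq)
    exact (eq_of_chi (h3 σ.lst).symm (h3 τ.lst).symm).symm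
  exact { }

/-- Number of nodes of the chain which lie in `D`. -/
noncomputable def cnt (D : Set (List Bool)) : List Wd → ℕ
  | [] => 0
  | w :: σ => cnt D σ + (@ite ℕ (node (w :: σ) ∈ D) (Classical.propDecidable _) 1 0)

lemma cnt_cons_of_mem {D : Set (List Bool)} {w : Wd} {σ : List Wd} (h : node (w :: σ) ∈ D) :
    cnt D (w :: σ) = cnt D σ + 1 := by
  rw [cnt, if_pos h]

lemma cnt_cons_of_notMem {D : Set (List Bool)} {w : Wd} {σ : List Wd}
    (h : node (w :: σ) ∉ D) : cnt D (w :: σ) = cnt D σ := by
  rw [cnt, if_neg h, add_zero]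

lemma cnt_eq_length {D : Set (List Bool)} (σ : List Wd) (h : ∀ s, s <+: node σ → s ∈ D) :
    cnt D σ = σ.length := by
  induction σ with
  | nil => rfl
  | cons w σ ih =>
    rw [cnt_cons_of_mem (h _ List.prefix_rfl), List.length_cons, ih]
    intro s hs
    exact h s (hs.trans (List.prefix_append _ _))

lemma cnt_eq_zero {D : Set (List Bool)} (σ : List Wd) (h : ∀ s, s <+: node σ → s ∉ D) :
    cnt D σ = 0 := by
  induction σ with
  | nil => rfl
  | cons w σ ih =>
    rw [cnt_cons_of_notMem (h _ List.prefix_rfl), ih]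
    intro s hs
    exact h s (hs.trans (List.prefix_append _ _))

/-- The parity function attached to a set of nodes. -/
noncomputable def par (D : Set (List Bool)) (σ : E) : ℝ := ((cnt D σ.lst % 2 : ℕ) : ℝ)

lemma par_ext_of_notMem {D : Set (List Bool)} {w : Wd} {σ : E}
    (h : node (w :: σ.lst) ∉ D) : par D (ext w σ) = par D σ := by
  unfold par
  have : cnt D (ext w σ).lst = cnt D σ.lst := cnt_cons_of_notMem h
  rw [this]

/-- Admissibility of parity functions. -/
lemma adm_par {D : Set (List Bool)}
    (h1 : ∀ r : List Bool, ∃ v : List Bool, ∀ t, (r ++ v) <+: t → t ∉ D)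
    (h2 : ∀ (r c₀ : List Bool) (a b : ℕ → Wd), ∀ᶠ k in atTop,
      (r ++ (base c₀ a b k ++ (a k).1) ∈ D ↔ r ++ base c₀ a b (k + 1) ∈ D)) : Adm (par D) := by
  refine adm_of_const (fun σ v => ?_) (fun σ c₀ a b => ?_)
  · obtain ⟨v', hv'⟩ := h1 (node σ.lst ++ v)
    refine ⟨v', fun w hw => par_ext_of_notMem (hv' _ ?_)⟩
    show _ <+: node σ.lst ++ w.1
    rw [List.append_assoc]
    exact (List.prefix_append_right_inj _).2 hw
  · filter_upwards [h2 (node σ.lst) c₀ a b] with k hk
    set σ' : List Wd := σ.lst with hσ'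
    have hn1 : node (app (base c₀ a b k) (a k) :: σ') =
        node σ' ++ (base c₀ a b k ++ (a k).1) := rfl
    have hn2 : node (b k :: app (base c₀ a b k) (a k) :: σ') =
        node σ' ++ base c₀ a b (k + 1) := by
      simp [node, app, base, List.append_assoc]
    show ((cnt D (b k :: app (base c₀ a b k) (a k) :: σ') % 2 : ℕ) : ℝ) =
      ((cnt D σ' % 2 : ℕ) : ℝ)
    by_cases hD : node σ' ++ (base c₀ a b k ++ (a k).1) ∈ D
    · have hD2 := hk.1 hD
      rw [cnt_cons_of_mem (by rw [hn2]; exact hD2), cnt_cons_of_mem (by rw [hn1]; exact hD)]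
      congr 1
      omega
    · have hD2 := fun h => hD (hk.2 h)
      rw [cnt_cons_of_notMem (by rw [hn2]; exact hD2),
        cnt_cons_of_notMem (by rw [hn1]; exact hD)]

end Pool.Agent.H18.Ascoli
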