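import Mathlib
import Pool.Agent.H18.Ascoli.Space

open Set Filter Topology

namespace Pool.Agent.H18.Ascoli

/-- Sequences that converge in the example. -/
lemma tendsto_seq (σ : E) (c₀ : List Bool) (a b : ℕ → Wd) :
    Tendsto (fun k => ext (b k) (ext (app (base c₀ a b k) (a k)) σ)) atTop (𝓝 σ) := by
  rw [tendsto_nhds]
  intro U hU hσ
  exact (nb_of_isOpen hU hσ).2 c₀ a b

/-- The oscillation function of a compact set of functions. -/
noncomputable def osc (K : Set C(E, ℝ)) (x₀ : E) (y : E) : ℝ :=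
  sSup ((fun ψ : C(E, ℝ) => |ψ y - ψ x₀|) '' K)

lemma osc_bdd {K : Set C(E, ℝ)} (hK : IsCompact K) (x₀ y : E) :
    BddAbove ((fun ψ : C(E, ℝ) => |ψ y - ψ x₀|) '' K) := by
  refine hK.bddAbove_image (Continuous.continuousOn ?_)
  exact ((ContinuousEvalConst.continuous_eval_const y).sub
    (ContinuousEvalConst.continuous_eval_const x₀)).abs

lemma osc_seq {K : Set C(E, ℝ)} (hK : IsCompact K) (x₀ σ : E) (x : ℕ → E)
    (hx : Tendsto x atTop (𝓝 σ)) :
    Tendsto (fun k => osc K x₀ (x k)) atTop (𝓝 (osc K x₀ σ)) := by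
  let θ : OnePoint ℕ → E := fun k => OnePoint.elim k σ x
  have hθ : Continuous θ := by
    rw [OnePoint.continuous_iff_from_nat]
    exact hx
  have h1 : Continuous fun p : OnePoint ℕ × C(E, ℝ) => |p.2 (θ p.1) - p.2 x₀| := by
    have h2 : Continuous fun ψ : C(E, ℝ) => ψ.comp ⟨θ, hθ⟩ := ContinuousMap.continuous_precomp _
    have h3 : Continuous fun p : OnePoint ℕ × C(E, ℝ) => (p.2.comp ⟨θ, hθ⟩) p.1 :=
      ContinuousEval.continuous_eval.comp ((h2.comp continuous_snd).prodMk continuous_fst)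
    exact (h3.sub ((ContinuousEvalConst.continuous_eval_const x₀).comp continuous_snd)).abs
  have h4 : Continuous fun k : OnePoint ℕ =>
      sSup ((fun ψ : C(E, ℝ) => |ψ (θ k) - ψ x₀|) '' K) :=
    hK.continuous_sSup (f := fun (k : OnePoint ℕ) (ψ : C(E, ℝ)) => |ψ (θ k) - ψ x₀|) h1
  exact (OnePoint.continuous_iff_from_nat _).1 h4

lemma osc_gt_open {K : Set C(E, ℝ)} (hK : IsCompact K) (hKne : K.Nonempty) (x₀ : E) (c : ℝ)
    {σ : E} (hσ : c < osc K x₀ σ) : Nb σ {y | c < osc K x₀ y} := by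
  obtain ⟨_, ⟨ψ, hψ, rfl⟩, hlt⟩ := exists_lt_of_lt_csSup (hKne.image _) hσ
  have h1 : IsOpen {y : E | c < |ψ y - ψ x₀|} :=
    isOpen_lt continuous_const (ψ.continuous.sub continuous_const).abs
  refine (nb_of_isOpen h1 hlt).mono fun y hy => ?_
  exact lt_of_lt_of_le hy (le_csSup (osc_bdd hK x₀ y) (mem_image_of_mem _ hψ))

lemma osc_lt_open {K : Set C(E, ℝ)} (hK : IsCompact K) (hKne : K.Nonempty) (x₀ : E) (c : ℝ)
    {σ : E} (hσ : osc K x₀ σ < c) : Nb σ {y | osc K x₀ y < c} := by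
  refine ⟨fun v => ?_, fun c₀ a b => ?_⟩
  · by_contra hcon
    push Not at hcon
    obtain ⟨c', hc1, hc2⟩ := exists_between hσ
    have step : ∀ v' : List Bool, ∃ a b : Wd, c' < osc K x₀ (ext b (ext (app (v ++ v') a) σ)) := by
      intro v'
      obtain ⟨w, hw, hwc⟩ := hcon (v' ++ [true])
      obtain ⟨u, hu⟩ := hw
      have hwc' : c ≤ osc K x₀ (ext w σ) := not_lt.1 hwc
      have h1 : c' < osc K x₀ (ext w σ) := lt_of_lt_of_le hc2 hwc'
      obtain ⟨v'', hv''⟩ := (osc_gt_open hK hKne x₀ c' h1).1 []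
      have h2 := hv'' ⟨v'' ++ [true], by simp⟩ (by
        show [] ++ v'' <+: v'' ++ [true]
        exact List.prefix_append _ _)
      refine ⟨⟨[true] ++ u, by simp⟩, ⟨v'' ++ [true], by simp⟩, ?_⟩
      have h3 : app (v ++ v') ⟨[true] ++ u, by simp⟩ = w := by
        apply Subtype.ext
        rw [← hu]
        simp [app]
      rw [h3]
      exact h2
    choose A B hAB using step
    -- the state is the word after `v`
    let st : ℕ → List Bool := fun k =>
      Nat.rec [] (fun _ s => s ++ (A s).1 ++ (B s).1) k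
    have hst : ∀ k, base v (fun k => A (st k)) (fun k => B (st k)) k = v ++ st k := by
      intro k
      induction k with
      | zero => simp [base, st]
      | succ k ih =>
        have h1 : st (k + 1) = st k ++ (A (st k)).1 ++ (B (st k)).1 := rfl
        rw [h1]
        simp only [base, ih, List.append_assoc]
    have h1 := osc_seq hK x₀ σ _ (tendsto_seq σ v (fun k => A (st k)) (fun k => B (st k)))
    have h2 : ∀ᶠ k in atTop, osc K x₀ (ext (B (st k)) (ext (app (base v (fun k => A (st k))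
        (fun k => B (st k)) k) (A (st k))) σ)) < c' := h1.eventually_lt_const hc1
    obtain ⟨k, hk⟩ := h2.exists
    rw [hst k] at hk
    exact lt_asymm hk (hAB (st k))
  · exact (osc_seq hK x₀ σ _ (tendsto_seq σ c₀ a b)).eventually_lt_const hσ

lemma continuous_osc {K : Set C(E, ℝ)} (hK : IsCompact K) (hKne : K.Nonempty) (x₀ : E) :
    Continuous (osc K x₀) := by
  have h : @Continuous E ℝ tau1 _ (osc K x₀) := by
    let := tau1
    rw [OrderTopology.continuous_iff]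
    exact fun c => ⟨fun σ hσ => osc_gt_open hK hKne x₀ c hσ,
      fun σ hσ => osc_lt_open hK hKne x₀ c hσ⟩
  have h2 : Adm (osc K x₀) := fun O hO => @Continuous.isOpen_preimage _ _ tau1 _ _ h O hO
  exact h2.continuous

theorem isAscoli_E : IsAscoli E := by
  intro K hK
  rw [continuous_iff_continuousAt]
  rintro ⟨x₀, ψ₀, hψ₀⟩
  have hKne : K.Nonempty := ⟨ψ₀, hψ₀⟩
  have h1 := (continuous_osc hK hKne x₀).tendsto x₀
  have h2 : osc K x₀ x₀ = 0 := by
    unfold osc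
    have : (fun ψ : C(E, ℝ) => |ψ x₀ - ψ x₀|) '' K = {0} := by
      simp [hKne]
    rw [this, csSup_singleton]
  rw [h2] at h1
  rw [Metric.continuousAt_iff'] 
  intro ε hε
  have h3 : ∀ᶠ p : E × K in 𝓝 (x₀, ⟨ψ₀, hψ₀⟩), osc K x₀ p.1 < ε / 2 :=
    (h1.comp continuous_fst.continuousAt.tendsto).eventually_lt_const (by positivity)
  have h4 : Tendsto (fun p : E × K => (p.2 : C(E, ℝ)) x₀) (𝓝 (x₀, ⟨ψ₀, hψ₀⟩)) (𝓝 (ψ₀ x₀)) := by
    have : Continuous fun p : E × K => (p.2 : C(E, ℝ)) x₀ :=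
      (ContinuousEvalConst.continuous_eval_const x₀).comp (continuous_subtype_val.comp continuous_snd)
    exact this.tendsto (x₀, (⟨ψ₀, hψ₀⟩ : K))
  have h5 : ∀ᶠ p : E × K in 𝓝 (x₀, ⟨ψ₀, hψ₀⟩), dist ((p.2 : C(E, ℝ)) x₀) (ψ₀ x₀) < ε / 2 :=
    (Metric.tendsto_nhds.1 h4) (ε / 2) (by positivity)
  filter_upwards [h3, h5] with p hp3 hp5
  have h6 : |(p.2 : C(E, ℝ)) p.1 - (p.2 : C(E, ℝ)) x₀| ≤ osc K x₀ p.1 :=
    le_csSup (osc_bdd hK x₀ p.1) (mem_image_of_mem _ p.2.2)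
  have h7 := dist_triangle ((p.2 : C(E, ℝ)) p.1) ((p.2 : C(E, ℝ)) x₀) (ψ₀ x₀)
  rw [Real.dist_eq ((p.2 : C(E, ℝ)) p.1) ((p.2 : C(E, ℝ)) x₀)] at h7
  show dist ((p.2 : C(E, ℝ)) p.1) (ψ₀ x₀) < ε
  linarith

end Pool.Agent.H18.Ascoli
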