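import Mathlib
import Pool.Agent.H18.Ascoli.Space

open Set Filter Topology

namespace Pool.Agent.H18.Ascoli

lemma r_base_prefix (r c₀ : List Bool) (a b : ℕ → Wd) {j k : ℕ} (h : j ≤ k) :
    r ++ base c₀ a b j <+: r ++ base c₀ a b k := by
  induction k, h using Nat.le_induction with
  | base => exact List.prefix_rfl
  | succ k _ ih =>
    refine ih.trans ?_
    rw [List.prefix_append_right_inj]
    simp only [base, List.append_assoc]
    exact List.prefix_append _ _

lemma u_prefix_t (r c₀ : List Bool) (a b : ℕ → Wd) {j k : ℕ} (h : j < k) :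
    r ++ base c₀ a b (j + 1) <+: r ++ (base c₀ a b k ++ (a k).1) := by
  refine (r_base_prefix r c₀ a b (Nat.succ_le_of_lt h)).trans ?_
  rw [List.prefix_append_right_inj]
  exact List.prefix_append _ _

lemma t_prefix_u (r c₀ : List Bool) (a b : ℕ → Wd) (k : ℕ) :
    r ++ (base c₀ a b k ++ (a k).1) <+: r ++ base c₀ a b (k + 1) := by
  rw [List.prefix_append_right_inj]
  simp only [base]
  exact List.prefix_append _ _

/-- Antichains of nodes. -/
lemma adm_par_antichain {A : Set (List Bool)}
    (hA : ∀ s ∈ A, ∀ t ∈ A, s <+: t → s = t) : Adm (par A) := by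
  refine adm_par (fun r => ?_) (fun r c₀ a b => ?_)
  · by_cases h : ∃ s ∈ A, r <+: s
    · obtain ⟨s, hs, v, rfl⟩ := h
      refine ⟨v ++ [true], fun t ht htA => ?_⟩
      have h1 : r ++ v <+: t := by
        refine List.IsPrefix.trans ?_ ht
        rw [← List.append_assoc]
        exact List.prefix_append _ _
      have h2 := hA _ hs _ htA h1
      have h3 := ht.length_le
      rw [← h2] at h3
      simp only [List.length_append, List.length_singleton] at h3
      omega
    · refine ⟨[], fun t ht htA => h ⟨t, htA, ?_⟩⟩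
      rwa [List.append_nil] at ht
  · have hlt : ∀ j k, j < k → (r ++ base c₀ a b (j + 1)).length <
        (r ++ (base c₀ a b k ++ (a k).1)).length := by
      intro j k hjk
      have h1 := (r_base_prefix r c₀ a b (show j + 1 ≤ k from hjk)).length_le
      have h2 := wd_length_pos (a k)
      simp only [List.length_append] at h1 ⊢
      omega
    by_cases h : ∃ j, r ++ (base c₀ a b j ++ (a j).1) ∈ A ∨ r ++ base c₀ a b (j + 1) ∈ A
    · obtain ⟨j, hj⟩ := h
      filter_upwards [eventually_gt_atTop j] with k hk
      have hp : r ++ base c₀ a b (j + 1) <+: r ++ (base c₀ a b k ++ (a k).1) :=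
        u_prefix_t r c₀ a b hk
      have hl := hlt j k hk
      have hq := t_prefix_u r c₀ a b k
      have hq' := t_prefix_u r c₀ a b j
      have key : ∀ s ∈ A, s <+: r ++ base c₀ a b (j + 1) →
          ∀ t ∈ A, r ++ (base c₀ a b k ++ (a k).1) <+: t → False := by
        intro s hs hsp t ht htp
        have h1 := hA s hs t ht (hsp.trans (hp.trans htp))
        have h2 := hsp.length_le
        have h3 := htp.length_le
        rw [← h1] at h3
        omega
      have h1 : r ++ (base c₀ a b k ++ (a k).1) ∉ A := by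
        intro hk'
        rcases hj with hj | hj
        · exact key _ hj hq' _ hk' List.prefix_rfl
        · exact key _ hj List.prefix_rfl _ hk' List.prefix_rfl
      have h2 : r ++ base c₀ a b (k + 1) ∉ A := by
        intro hk'
        rcases hj with hj | hj
        · exact key _ hj hq' _ hk' hq
        · exact key _ hj List.prefix_rfl _ hk' hq
      exact ⟨fun h => absurd h h1, fun h => absurd h h2⟩
    · push Not at h
      exact Eventually.of_forall fun k => ⟨fun hk => absurd hk (h k).1, fun hk => absurd hk (h k).2⟩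

/-- Downward closures of increasing sequences of nodes. -/
lemma adm_par_chain {q : ℕ → List Bool} (hq : ∀ m n, m < n → q m <+: q n) :
    Adm (par {s | ∃ k, s <+: q k}) := by
  have hdown : ∀ s t : List Bool, s <+: t → t ∈ {s | ∃ k, s <+: q k} →
      s ∈ {s | ∃ k, s <+: q k} := by
    rintro s t hst ⟨k, hk⟩
    exact ⟨k, hst.trans hk⟩
  refine adm_par (fun r => ?_) (fun r c₀ a b => ?_)
  · have h1 : ∃ v : List Bool, r ++ v ∉ {s | ∃ k, s <+: q k} := by
      by_contra hcon
      push Not at hcon
      obtain ⟨i, hi⟩ := hcon [true]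
      obtain ⟨j, hj⟩ := hcon [false]
      have hm : ∀ m n, m ≤ n → q m <+: q n := by
        intro m n hmn
        rcases hmn.lt_or_eq with h | h
        · exact hq m n h
        · rw [h]
      have hi' := hi.trans (hm i (max i j) (le_max_left _ _))
      have hj' := hj.trans (hm j (max i j) (le_max_right _ _))
      have hc := List.prefix_of_prefix_length_le hi' hj' (by simp)
      have := hc.eq_of_length (by simp)
      have := (List.append_right_inj r).1 this
      simp at this
    obtain ⟨v, hv⟩ := h1
    exact ⟨v, fun t ht htz => hv (hdown _ _ ht htz)⟩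
  · by_cases h : ∃ j, r ++ base c₀ a b (j + 1) ∉ {s | ∃ k, s <+: q k}
    · obtain ⟨j, hj⟩ := h
      filter_upwards [eventually_gt_atTop j] with k hk
      have h1 := u_prefix_t r c₀ a b hk
      have h2 := h1.trans (t_prefix_u r c₀ a b k)
      exact ⟨fun h => absurd (hdown _ _ h1 h) hj, fun h => absurd (hdown _ _ h2 h) hj⟩
    · push Not at h
      exact Eventually.of_forall fun k =>
        ⟨fun _ => h k, fun _ => hdown _ _ (t_prefix_u r c₀ a b k) (h k)⟩

instance : Nonempty E := ⟨⟨[]⟩⟩

/-- The parity of the length. -/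
noncomputable def F (σ : E) : ℝ := ((σ.lst.length % 2 : ℕ) : ℝ)

lemma node_mono_suffix {ρ σ : List Wd} (h : ρ <:+ σ) : node ρ <+: node σ := by
  obtain ⟨l, rfl⟩ := h
  induction l with
  | nil => exact List.prefix_rfl
  | cons w l ih => exact ih.trans (List.prefix_append _ _)

lemma length_le_node (σ : List Wd) : σ.length ≤ (node σ).length := by
  induction σ with
  | nil => exact le_rfl
  | cons w σ ih =>
    rw [node_cons_length, List.length_cons]
    have := wd_length_pos w
    omega

lemma mem_length_le_node (σ : List Wd) : ∀ w ∈ σ, w.1.length ≤ (node σ).length := by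
  induction σ with
  | nil => intro w hw; exact absurd hw List.not_mem_nil
  | cons w σ ih =>
    intro u hu
    rw [node_cons_length]
    rcases List.mem_cons.1 hu with rfl | hu
    · omega
    · have := ih u hu
      omega

lemma finite_node_le (L : ℕ) : {σ : List Wd | (node σ).length ≤ L}.Finite := by
  have h1 : {w : Wd | w.1.length ≤ L}.Finite :=
    (List.finite_length_le Bool L).preimage Subtype.val_injective.injOn
  have : Finite {w : Wd // w.1.length ≤ L} := h1.to_subtype
  have h2 : {l : List {w : Wd // w.1.length ≤ L} | l.length ≤ L}.Finite :=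
    List.finite_length_le _ L
  refine (h2.image (List.map Subtype.val)).subset ?_
  intro σ hσ
  have hσ' : (node σ).length ≤ L := hσ
  have h3 : ∀ w ∈ σ, w.1.length ≤ L := fun w hw => (mem_length_le_node σ w hw).trans hσ'
  refine ⟨σ.pmap (fun w h => ⟨w, h⟩) h3, ?_, ?_⟩
  · show (σ.pmap _ h3).length ≤ L
    rw [List.length_pmap]
    exact (length_le_node σ).trans hσ'
  · rw [List.map_pmap]
    simp

/-- The combinatorial core: sequences of the wrong parity do not converge. -/
lemma exists_separating (σ : E) (x : ℕ → E) (hF : ∀ n, F (x n) ≠ F σ)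
    (hsuf : ∀ n, σ.lst <:+ (x n).lst)
    (hev : ∀ τ : E, ∀ᶠ n in atTop, x n ≠ τ) :
    ∃ f : E → ℝ, Adm f ∧ ∃ C : Set ℝ, IsClosed C ∧ f σ ∉ C ∧
      ∃ θ : ℕ → ℕ, StrictMono θ ∧ ∀ k, f (x (θ k)) ∈ C := by
  -- lengths of the nodes tend to infinity
  have hlen : Tendsto (fun n => (node (x n).lst).length) atTop atTop := by
    rw [tendsto_atTop]
    intro L
    have h1 : ∀ᶠ n in atTop, ∀ τ ∈ {σ : List Wd | (node σ).length ≤ L}, x n ≠ E.mk τ := by
      rw [(finite_node_le L).eventually_all]
      intro τ _
      exact hev _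
    filter_upwards [h1] with n hn
    by_contra hlt
    push Not at hlt
    exact hn (x n).lst hlt.le rfl
  obtain ⟨N₀, hN₀⟩ := (tendsto_atTop.1 hlen ((node σ.lst).length + 1)).exists_forall_of_atTop
  obtain ⟨φ, hφ, hφl⟩ := strictMono_subseq_of_tendsto_atTop
    (hlen.comp (tendsto_add_atTop_nat N₀))
  let y : ℕ → E := fun n => x (φ n + N₀)
  have hyl : StrictMono fun n => (node (y n).lst).length := hφl
  have hyN : ∀ n, (node σ.lst).length < (node (y n).lst).length := fun n =>
    hN₀ _ (Nat.le_add_left _ _)
  have htr : IsTrans (List Bool) (· <+: ·) := ⟨fun _ _ _ h1 h2 => h1.trans h2⟩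
  obtain ⟨g, hg⟩ := exists_increasing_or_nonincreasing_subseq
    (fun s t : List Bool => s <+: t) (fun n => node (y n).lst)
  have hθ : StrictMono fun k => φ (g k) + N₀ := fun m n hmn =>
    Nat.add_lt_add_right (hφ (g.strictMono hmn)) N₀
  rcases hg with hg | hg
  · -- chain
    refine ⟨_, adm_par_chain (q := fun k => node (y (g k)).lst) hg, {F σ}ᶜ ∩ {0, 1}, ?_, ?_,
      _, hθ, ?_⟩
    · have : ({F σ}ᶜ ∩ {0, 1} : Set ℝ).Finite := (Set.toFinite {0, 1}).subset inter_subset_right
      exact this.isClosed
    · rintro ⟨h1, _⟩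
      refine h1 ?_
      show par _ σ = F σ
      unfold par F
      rw [cnt_eq_length]
      intro s hs
      exact ⟨0, hs.trans (node_mono_suffix (hsuf _))⟩
    · intro k
      have h1 : par {s | ∃ k, s <+: node (y (g k)).lst} (x (φ (g k) + N₀)) =
          F (x (φ (g k) + N₀)) := by
        unfold par F
        rw [cnt_eq_length]
        intro s hs
        exact ⟨k, hs⟩
      rw [h1]
      refine ⟨hF _, ?_⟩
      unfold F
      rcases Nat.mod_two_eq_zero_or_one (x (φ (g k) + N₀)).lst.length with h | h
      · rw [h]; left; simp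
      · rw [h]; right; simp
  · -- antichain
    have hanti : ∀ s ∈ range (fun k => node (y (g k)).lst),
        ∀ t ∈ range (fun k => node (y (g k)).lst), s <+: t → s = t := by
      rintro _ ⟨m, rfl⟩ _ ⟨n, rfl⟩ h
      rcases lt_trichotomy m n with hmn | hmn | hmn
      · exact absurd h (hg m n hmn)
      · rw [hmn]
      · have h1 := hyl (g.strictMono hmn)
        have h2 := h.length_le
        simp only at h1 h2
        omega
    refine ⟨_, adm_par_antichain hanti, {1}, isClosed_singleton, ?_, _, hθ, ?_⟩
    · rw [mem_singleton_iff]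
      unfold par
      rw [cnt_eq_zero]
      · norm_num
      · rintro s hs ⟨k, rfl⟩
        have h1 := hs.length_le
        have h2 := hyN (g k)
        simp only at h1
        omega
    · intro k
      rw [mem_singleton_iff]
      have hne : (y (g k)).lst ≠ [] := by
        intro h
        have h1 := hyN (g k)
        rw [h] at h1
        simp [node] at h1
      obtain ⟨w, τ, hwτ⟩ := List.exists_cons_of_ne_nil hne
      show ((cnt _ (y (g k)).lst % 2 : ℕ) : ℝ) = 1
      have hmem : node (w :: τ) ∈ range (fun k => node (y (g k)).lst) :=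
        ⟨k, by simp only [hwτ]⟩
      rw [hwτ, cnt_cons_of_mem hmem, cnt_eq_zero]
      · norm_num
      · rintro s hs ⟨j, rfl⟩
        have h1 : node τ <+: node (w :: τ) := List.prefix_append _ _
        have h2 : node (y (g j)).lst <+: node (y (g k)).lst := by
          rw [hwτ]
          exact hs.trans h1
        have h3 := hanti _ ⟨j, rfl⟩ _ ⟨k, rfl⟩ h2
        have h4 := hs.length_le
        simp only at h3 h4
        rw [h3, hwτ, node_cons_length] at h4
        have := wd_length_pos w
        omega

/-- The parity function is continuous on compact sets. -/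
lemma continuousOn_F (K : Set E) (hK : IsCompact K) : ContinuousOn F K := by
  intro σ hσ
  by_contra hcon
  -- points of `K` near `σ` with the wrong parity
  have hfreq : ∀ U : Set E, IsOpen U → σ ∈ U → ∃ τ ∈ K ∩ U, F τ ≠ F σ := by
    intro U hU hσU
    by_contra hno
    push Not at hno
    apply hcon
    have : (fun _ : E => F σ) =ᶠ[𝓝[K] σ] F := by
      filter_upwards [inter_mem_nhdsWithin K (hU.mem_nhds hσU)] with τ hτ
      exact (hno τ hτ).symm
    exact (tendsto_const_nhds.congr' this)
  obtain ⟨e, he⟩ := exists_surjective_nat E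
  let V : ℕ → Set E := fun n =>
    {τ | chi σ.lst τ = chi σ.lst σ} ∩ ⋂ i ∈ Iic n, {τ | chi (e i).lst τ = chi (e i).lst σ}
  have hclop : ∀ ρ : List Wd, IsClopen {τ : E | chi ρ τ = chi ρ σ} := by
    intro ρ
    have h1 : {τ : E | chi ρ τ = chi ρ σ} = chi ρ ⁻¹' {chi ρ σ} := rfl
    constructor
    · rw [h1]
      exact isClosed_singleton.preimage (adm_chi ρ).continuous
    · have h2 : {τ : E | chi ρ τ = chi ρ σ} = chi ρ ⁻¹' (Ioo (chi ρ σ - 1 / 2) (chi ρ σ + 1 / 2)) := by
        ext τ
        simp only [mem_preimage, mem_Ioo]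
        constructor
        · intro h
          have h' : chi ρ τ = chi ρ σ := h
          rw [h']
          constructor <;> linarith
        · intro h
          show chi ρ τ = chi ρ σ
          unfold chi at h ⊢
          split_ifs at h ⊢ with h3 h4 h5 <;> first | rfl | (exfalso; linarith [h.1, h.2])
      rw [h2]
      exact isOpen_Ioo.preimage (adm_chi ρ).continuous
  have hVclop : ∀ n, IsClopen (V n) := fun n =>
    (hclop _).inter ((finite_Iic n).isClopen_biInter fun i _ => hclop _)
  have hVσ : ∀ n, σ ∈ V n := fun n => ⟨rfl, mem_iInter₂.2 fun i _ => rfl⟩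
  have hVanti : ∀ m n, m ≤ n → V n ⊆ V m := by
    intro m n hmn τ hτ
    refine ⟨hτ.1, mem_iInter₂.2 fun i hi => ?_⟩
    exact mem_iInter₂.1 hτ.2 i (le_trans hi hmn)
  have hVinter : ∀ τ, (∀ n, τ ∈ V n) → τ = σ := by
    intro τ hτ
    refine eq_of_chi (hτ 0).1 ?_
    obtain ⟨i, rfl⟩ := he τ
    exact mem_iInter₂.1 (hτ i).2 i (mem_Iic.2 le_rfl)
  choose x hxKV hxF using fun n => hfreq (V n) (hVclop n).isOpen (hVσ n)
  have hsuf : ∀ n, σ.lst <:+ (x n).lst := by
    intro n
    refine chi_eq_one ?_
    rw [(hxKV n).2.1, chi_self]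
  have hev : ∀ τ : E, ∀ᶠ n in atTop, x n ≠ τ := by
    intro τ
    by_cases hτ : τ = σ
    · refine Eventually.of_forall fun n h => hxF n ?_
      rw [h, hτ]
    · have : ∃ n, τ ∉ V n := by
        by_contra h
        push Not at h
        exact hτ (hVinter τ h)
      obtain ⟨n, hn⟩ := this
      filter_upwards [eventually_ge_atTop n] with m hm h
      exact hn (h ▸ hVanti n m hm (hxKV m).2)
  obtain ⟨f, hf, C, hC, hfσ, θ, hθ, hθC⟩ := exists_separating σ x hxF hsuf hev
  have hne : (⋂ n, (K ∩ f ⁻¹' C) ∩ V n).Nonempty := by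
    refine IsCompact.nonempty_iInter_of_sequence_nonempty_isCompact_isClosed _ ?_ ?_ ?_ ?_
    · intro n
      exact inter_subset_inter_right _ (hVanti n (n + 1) (Nat.le_succ n))
    · intro n
      refine ⟨x (θ n), ⟨(hxKV _).1, hθC n⟩, hVanti n (θ n) (hθ.id_le n) (hxKV _).2⟩
    · exact (hK.inter_right (hC.preimage hf.continuous)).inter_right (hVclop 0).isClosed
    · intro n
      exact (hK.isClosed.inter (hC.preimage hf.continuous)).inter (hVclop n).isClosed
  obtain ⟨τ, hτ⟩ := hne
  rw [mem_iInter] at hτ
  have h1 : τ = σ := hVinter τ fun n => (hτ n).2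
  have h2 := (hτ 0).1.2
  rw [h1] at h2
  exact hfσ h2

lemma not_continuous_F : ¬ Continuous F := by
  intro h
  have h1 : IsOpen (F ⁻¹' (Iio (1 / 2))) := isOpen_Iio.preimage h
  have h2 : (E.mk []) ∈ F ⁻¹' (Iio (1 / 2)) := by
    show F _ < 1 / 2
    unfold F
    simp
  obtain ⟨v', hv'⟩ := (nb_of_isOpen h1 h2).1 []
  have h3 := hv' (app v' ⟨[true], by simp⟩) (by
    show [] ++ v' <+: v' ++ [true]
    exact List.prefix_append _ _)
  have h4 : F (ext (app v' ⟨[true], by simp⟩) (E.mk [])) < 1 / 2 := h3
  unfold F ext at h4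
  simp at h4
  norm_num at h4

theorem not_isKR_E : ¬ IsKR E := fun h => not_continuous_F (h F continuousOn_F)

end Pool.Agent.H18.Ascoli
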